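import Mathlib
import Pool.Agent.Q3.VdC.Vdc

/-!
# MP_22b8ff_nt: hybrid Kronecker - van der Corput sequences for `α` in `Bad_p` have low discrepancy
-/

set_option autoImplicit false

namespace Pool.Agent.Results.MP_22b8ff_nt.LowDiscrepancy

open Filter

/-- `‖x‖`: the distance of the real number `x` to the nearest integer. -/
noncomputable def nearInt (x : ℝ) : ℝ := |x - (round x : ℝ)|

/-- The set `Bad_p`: the real `α` with `inf_{q ≥ 1} q |q|_p ‖q α‖ > 0`. -/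
def Bad (p : ℕ) : Set ℝ :=
  {α | 0 < ⨅ q : ℕ+, ((q : ℕ) : ℝ) * ((padicNorm p ((q : ℕ) : ℚ) : ℚ) : ℝ) * nearInt (((q : ℕ) : ℝ) * α)}

/-- The radical inverse `φ_p(n) = ∑ a_i p^(-i-1)`, where `a_i = ⌊n / p^i⌋ mod p` are the base `p` digits
of `n`. -/
noncomputable def phi (p n : ℕ) : ℝ := ∑' i : ℕ, ((n / p ^ i % p : ℕ) : ℝ) / (p : ℝ) ^ (i + 1)

/-- The star discrepancy `D_N` of the hybrid sequence `({n α}, φ_p(n))`, `n ≥ 0`. -/
noncomputable def discrepancy (p : ℕ) (α : ℝ) (N : ℕ) : ℝ :=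
  sSup {d : ℝ | ∃ a b : ℝ, 0 ≤ a ∧ a ≤ 1 ∧ 0 ≤ b ∧ b ≤ 1 ∧
    d = |1 / (N : ℝ) * ((Finset.range N).filter
      (fun n : ℕ => Int.fract (n * α) ∈ Set.Ico 0 a ∧ phi p n ∈ Set.Ico 0 b)).card - a * b|}

/-- For every prime `p` and every `α` in `Bad_p` the hybrid sequence `({n α}, φ_p(n))` is a low
discrepancy sequence: `D_N = O((log N)² / N)`. -/
theorem result (p : ℕ) (hp : p.Prime) (α : ℝ) (hα : α ∈ Bad p) :
    (fun N : ℕ => discrepancy p α N) =O[atTop] (fun N : ℕ => (Real.log N) ^ 2 / N) := by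
  haveI : Fact p.Prime := ⟨hp⟩
  have hp2 : 2 ≤ p := hp.two_le
  set c : ℝ := ⨅ q : ℕ+, ((q : ℕ) : ℝ) * ((padicNorm p ((q : ℕ) : ℚ) : ℚ) : ℝ) *
    nearInt (((q : ℕ) : ℝ) * α) with hc
  have hc0 : 0 < c := hα
  have hbdd : BddBelow (Set.range (fun q : ℕ+ => ((q : ℕ) : ℝ) * ((padicNorm p ((q : ℕ) : ℚ) : ℚ) : ℝ) *
      nearInt (((q : ℕ) : ℝ) * α))) := by
    refine ⟨0, ?_⟩
    rintro _ ⟨q, rfl⟩
    have h1 : (0 : ℝ) ≤ ((padicNorm p ((q : ℕ) : ℚ) : ℚ) : ℝ) := by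
      exact_mod_cast padicNorm.nonneg _
    have h2 : 0 ≤ nearInt (((q : ℕ) : ℝ) * α) := abs_nonneg _
    positivity
  have hbad : ∀ i : ℕ, ∀ q : ℕ, 0 < q → ∀ z : ℤ, c ≤ q * |q * ((p : ℝ) ^ i * α) - z| := by
    intro i q hq z
    have hpos : 0 < q * p ^ i := by positivity
    have h1 : c ≤ ((q * p ^ i : ℕ) : ℝ) * ((padicNorm p ((q * p ^ i : ℕ) : ℚ) : ℚ) : ℝ) *
        nearInt (((q * p ^ i : ℕ) : ℝ) * α) := ciInf_le hbdd (⟨q * p ^ i, hpos⟩ : ℕ+)
    have h2 : ((padicNorm p ((q * p ^ i : ℕ) : ℚ) : ℚ) : ℝ) ≤ 1 / (p : ℝ) ^ i := by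
      have h3 : padicNorm p (((q * p ^ i : ℕ) : ℤ) : ℚ) ≤ (p : ℚ) ^ (-(i : ℤ)) := by
        rw [← padicNorm.dvd_iff_norm_le]
        exact ⟨q, by push_cast; ring⟩
      have h4 : ((padicNorm p (((q * p ^ i : ℕ) : ℤ) : ℚ) : ℚ) : ℝ) ≤ (((p : ℚ) ^ (-(i : ℤ)) : ℚ) : ℝ) := by
        exact_mod_cast h3
      have h5 : (((p : ℚ) ^ (-(i : ℤ)) : ℚ) : ℝ) = 1 / (p : ℝ) ^ i := by
        push_cast
        rw [zpow_neg, zpow_natCast, one_div]
      rw [h5] at h4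
      exact_mod_cast h4
    have h3 : nearInt (((q * p ^ i : ℕ) : ℝ) * α) ≤ |q * ((p : ℝ) ^ i * α) - z| := by
      have h4 : (((q * p ^ i : ℕ) : ℝ) * α) = q * ((p : ℝ) ^ i * α) := by push_cast; ring
      rw [h4]
      exact round_le _ z
    have hpi : (0 : ℝ) < (p : ℝ) ^ i := by
      have : (0 : ℝ) < p := by exact_mod_cast hp.pos
      positivity
    have h0 : 0 ≤ nearInt (((q * p ^ i : ℕ) : ℝ) * α) := abs_nonneg _
    have h0' : (0 : ℝ) ≤ ((padicNorm p ((q * p ^ i : ℕ) : ℚ) : ℚ) : ℝ) := by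
      exact_mod_cast padicNorm.nonneg _
    calc c ≤ ((q * p ^ i : ℕ) : ℝ) * ((padicNorm p ((q * p ^ i : ℕ) : ℚ) : ℚ) : ℝ) *
        nearInt (((q * p ^ i : ℕ) : ℝ) * α) := h1
      _ ≤ ((q * p ^ i : ℕ) : ℝ) * (1 / (p : ℝ) ^ i) * |q * ((p : ℝ) ^ i * α) - z| := by gcongr
      _ = q * |q * ((p : ℝ) ^ i * α) - z| := by
        push_cast
        field_simp
  set C : ℝ := (3 * p + 1) * (5 + 4 / c) + 2 with hC
  have hC0 : 0 ≤ C := by positivity
  apply Asymptotics.IsBigO.of_bound C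
  filter_upwards [eventually_ge_atTop 3] with N hN
  have hNr : (0 : ℝ) < N := by exact_mod_cast (by omega : 0 < N)
  have hlog : 1 ≤ Real.log N := by
    rw [Real.le_log_iff_exp_le hNr]
    have h1 : Real.exp 1 < 3 := Real.exp_one_lt_three
    have h2 : (3 : ℝ) ≤ N := by exact_mod_cast hN
    linarith
  -- the level m
  set m : ℕ := Nat.clog p N with hm
  have hmN : N ≤ p ^ m := Nat.le_pow_clog (by omega) N
  have hm3 : (m : ℝ) ≤ 3 * Real.log N := by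
    have h1 : p ^ (m - 1) < N := Nat.pow_pred_clog_lt_self (by omega) (by omega)
    have h2 : (2 : ℕ) ^ (m - 1) ≤ p ^ (m - 1) := Nat.pow_le_pow_left hp2 _
    have h3 : ((2 : ℝ)) ^ (m - 1) < N := by exact_mod_cast h2.trans_lt h1
    have h4 : Real.log ((2 : ℝ) ^ (m - 1)) < Real.log N := Real.log_lt_log (by positivity) h3
    rw [Real.log_pow] at h4
    have h5 : (m : ℝ) - 1 ≤ ((m - 1 : ℕ) : ℝ) := by
      have : m ≤ (m - 1) + 1 := by omega
      have h6 : (m : ℝ) ≤ ((m - 1 : ℕ) : ℝ) + 1 := by exact_mod_cast this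
      linarith
    have h6 : (0.69 : ℝ) < Real.log 2 := by have := Real.log_two_gt_d9; linarith
    have h7 : (0 : ℝ) ≤ ((m - 1 : ℕ) : ℝ) := Nat.cast_nonneg _
    nlinarith
  -- every box
  have hbox : ∀ d ∈ {d : ℝ | ∃ a b : ℝ, 0 ≤ a ∧ a ≤ 1 ∧ 0 ≤ b ∧ b ≤ 1 ∧
    d = |1 / (N : ℝ) * ((Finset.range N).filter
      (fun n : ℕ => Int.fract (n * α) ∈ Set.Ico 0 a ∧ phi p n ∈ Set.Ico 0 b)).card - a * b|},
      d ≤ C * ((Real.log N) ^ 2 / N) := by
    rintro d ⟨a, b, ha0, ha1, hb0, hb1, rfl⟩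
    have h1 := Q3.VdC.box_count α c p hp2 hbad hc0 a ha0 ha1 b hb0 hb1 N m (by omega) hmN
    have h2 : ((Finset.range N).filter
      (fun n : ℕ => Int.fract (n * α) ∈ Set.Ico 0 a ∧ phi p n ∈ Set.Ico 0 b)) =
      ((Finset.range N).filter (fun n : ℕ => Int.fract (n * α) < a ∧ Q3.VdC.phi p n < b)) := by
      apply Finset.filter_congr
      intro n _
      have h3 : 0 ≤ Q3.VdC.phi p n := Q3.VdC.phi_nonneg p n
      have h4 : phi p n = Q3.VdC.phi p n := rfl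
      rw [h4]
      simp only [Set.mem_Ico, Int.fract_nonneg, true_and, h3]
    rw [h2]
    set X : ℝ := (((Finset.range N).filter
      (fun n : ℕ => Int.fract (n * α) < a ∧ Q3.VdC.phi p n < b)).card : ℝ) with hX
    have h3 : 1 / (N : ℝ) * X - a * b = (X - N * (a * b)) / N := by field_simp
    rw [h3, abs_div, abs_of_pos hNr, mul_div_assoc']
    gcongr
    refine h1.trans ?_
    have herr : Q3.VdC.err c N ≤ (5 + 4 / c) * Real.log N := by
      unfold Q3.VdC.err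
      have h4 : 4 * (Real.log N / c) = 4 / c * Real.log N := by ring
      rw [h4]
      nlinarith
    have herr0 : 0 ≤ Q3.VdC.err c N := by
      unfold Q3.VdC.err
      have : 0 ≤ Real.log N / c := div_nonneg (by linarith) hc0.le
      linarith
    have hpr : (0 : ℝ) ≤ p := Nat.cast_nonneg _
    have h4c : 0 < 4 / c := by positivity
    calc ((m : ℝ) * p + 1) * Q3.VdC.err c N + 2
        ≤ (3 * Real.log N * p + Real.log N) * ((5 + 4 / c) * Real.log N) + 2 * (Real.log N) ^ 2 := by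
          have h5 : (m : ℝ) * p + 1 ≤ 3 * Real.log N * p + Real.log N := by nlinarith
          have h6 : (2 : ℝ) ≤ 2 * (Real.log N) ^ 2 := by nlinarith
          have h7 : 0 ≤ 3 * Real.log N * p + Real.log N := by positivity
          have h8 := mul_le_mul h5 herr herr0 h7
          linarith
      _ = C * (Real.log N) ^ 2 := by rw [hC]; ring
  have hnn : 0 ≤ (Real.log N) ^ 2 / N := by positivity
  have h0 : 0 ≤ discrepancy p α N := by
    apply Real.sSup_nonneg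
    rintro d ⟨a, b, _, _, _, _, rfl⟩
    exact abs_nonneg _
  rw [Real.norm_of_nonneg h0, Real.norm_of_nonneg hnn]
  exact Real.sSup_le hbox (by positivity)

end Pool.Agent.Results.MP_22b8ff_nt.LowDiscrepancy
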